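import Pool.Agent.V5helper19.EP.Stm

/-!
# Project EP (helper19), piece G: greedy containers (helper9)
-/

set_option autoImplicit false

namespace Pool.Agent.V5helper9.EPD

open Finset Configuration Pool.Agent.W5h2.DP

open Classical in
/-- the points on few lines missing `S` -/
noncomputable def XS (P L : Type) [Fintype P] [Fintype L] [Membership P L] (q n : ℕ) (S : Finset P) : Finset P :=
  univ.filter fun x => 2 * n * ((mis L S).filter fun l => x ∈ l).card < (mis L S).card * (q + 1)

/-- **G** -/
theorem t_G (h : S_H) : V5helper19.EP.S_G := by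
  classical
  intro P L _ _ _ _ q n hq hn s J hs hJ
  refine ⟨XS P L q n, fun A => ?_⟩
  obtain ⟨r, hr⟩ : ∃ r : ℝ, r = 1 - ((q : ℝ) + 1) / (2 * n) := ⟨_, rfl⟩
  have hn0 : (0 : ℝ) < n := by rw [hn]; positivity
  have hr0 : 0 ≤ r := by
    rw [hr, sub_nonneg, div_le_one (by positivity)]
    have h1 : q + 1 ≤ 2 * n := by rw [hn]; nlinarith
    exact_mod_cast h1
  have hcard : (Fintype.card L : ℝ) = n := by
    have h1 : Fintype.card L = n := by
      rw [hn, hq]
      exact ProjectivePlane.card_lines P L
    exact_mod_cast h1
  -- greedy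
  have key : ∀ j : ℕ, (∃ S : Finset P, S ⊆ A ∧ S.card ≤ j ∧ A ⊆ XS P L q n S) ∨
      ∃ S : Finset P, S ⊆ A ∧ S.card ≤ j ∧ ((mis L S).card : ℝ) ≤ r ^ j * n := by
    intro j
    induction j with
    | zero =>
      refine Or.inr ⟨∅, empty_subset A, le_rfl, ?_⟩
      rw [pow_zero, one_mul, ← hcard]
      exact_mod_cast card_le_univ _
    | succ j ih =>
      rcases ih with ⟨S, h1, h2, h3⟩ | ⟨S, h1, h2, h3⟩
      · exact Or.inl ⟨S, h1, by omega, h3⟩
      · by_cases hA : A ⊆ XS P L q n S
        · exact Or.inl ⟨S, h1, by omega, hA⟩
        · rw [not_subset] at hA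
          obtain ⟨a, haA, ha⟩ := hA
          refine Or.inr ⟨insert a S, insert_subset haA h1, (card_insert_le a S).trans (by omega), ?_⟩
          have ha' : (mis L S).card * (q + 1) ≤ 2 * n * ((mis L S).filter fun l => a ∈ l).card := by
            by_contra h0
            exact ha (mem_filter.2 ⟨mem_univ a, not_le.1 h0⟩)
          have hm : mis L (insert a S) = (mis L S).filter fun l => ¬ a ∈ l := by
            ext l
            rw [mem_filter, mem_mis, mem_mis]
            constructor
            · intro h4
              exact ⟨fun p hp => h4 p (mem_insert_of_mem hp), h4 a (mem_insert_self a S)⟩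
            · rintro ⟨h4, h5⟩ p hp
              rcases mem_insert.1 hp with rfl | hp
              · exact h5
              · exact h4 p hp
          have hsum := Finset.card_filter_add_card_filter_not (s := mis L S) (fun l => a ∈ l)
          rw [hm]
          have h4 : (((mis L S).filter fun l => ¬ a ∈ l).card : ℝ) =
              (mis L S).card - ((mis L S).filter fun l => a ∈ l).card := by
            have : (((mis L S).filter fun l => a ∈ l).card : ℝ) +
                (((mis L S).filter fun l => ¬ a ∈ l).card : ℝ) = (mis L S).card := by exact_mod_cast hsum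
            linarith
          have h5 : ((mis L S).card : ℝ) * (q + 1) ≤ 2 * n * ((mis L S).filter fun l => a ∈ l).card := by
            exact_mod_cast ha'
          have h6 : ((mis L S).card : ℝ) * (((q : ℝ) + 1) / (2 * n)) ≤
              ((mis L S).filter fun l => a ∈ l).card := by
            rw [← mul_div_assoc, div_le_iff₀ (by positivity)]
            linarith
          calc (((mis L S).filter fun l => ¬ a ∈ l).card : ℝ) ≤ (mis L S).card * r := by
                rw [h4, hr, mul_sub, mul_one]
                linarith
            _ ≤ (r ^ j * n) * r := mul_le_mul_of_nonneg_right h3 hr0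
            _ = r ^ (j + 1) * n := by ring
  rcases key J with ⟨S, h1, h2, h3⟩ | ⟨S, h1, h2, h3⟩
  · refine ⟨S, h1, h2, ?_⟩
    by_cases hm : (mis L S).card ≤ s
    · exact Or.inl hm
    · refine Or.inr ⟨h3, ?_⟩
      by_contra hX
      push Not at hm hX
      have h4 : 4 * q * n ^ 2 < (XS P L q n S).card * (mis L S).card * (q + 1) ^ 2 := by
        have h5 : s * s < (XS P L q n S).card * (mis L S).card := Nat.mul_lt_mul'' hX hm
        calc 4 * q * n ^ 2 ≤ s ^ 2 * (q + 1) ^ 2 := hs
          _ = s * s * (q + 1) ^ 2 := by ring
          _ < (XS P L q n S).card * (mis L S).card * (q + 1) ^ 2 :=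
            Nat.mul_lt_mul_of_pos_right h5 (by positivity)
      obtain ⟨a, ha, ha2⟩ := h P L q n hq hn (XS P L q n S) (mis L S) h4
      have h5 := (mem_filter.1 ha).2
      omega
  · refine ⟨S, h1, h2, Or.inl ?_⟩
    rw [← hr] at hJ
    have h4 : ((mis L S).card : ℝ) < 1 := lt_of_le_of_lt h3 hJ
    have h5 : (mis L S).card = 0 := by
      have : (mis L S).card < 1 := by exact_mod_cast h4
      omega
    omega

end Pool.Agent.V5helper9.EPD
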