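import Pool.Agent.V5helper19.EP.Stm

/-!
# Project EP (helper19), piece MC: minimal dominating sets and triples of tangency sets (helper9)

Adapted from `Pool/Agent/W5h2/DP/M.lean`.
-/

set_option autoImplicit false

namespace Pool.Agent.V5helper9.EPD

open Finset Configuration Pool.Agent.W5h2.DP

/-- Every line of `C` has a point which lies on no other line of `C`. -/
def TanL (P L : Type) [Membership P L] (C : Finset L) : Prop :=
  ∀ l ∈ C, ∃ p : P, p ∈ l ∧ ∀ l' ∈ C, p ∈ l' → l' = l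

section main

variable {P L : Type} [Fintype P] [Fintype L] [Membership P L]

lemma m_part2 {D : Finset P × Finset L} (hD : Minimal (Dom P L) D) :
    ∃ (A B : Finset P) (C : Finset L), Tan P L A ∧ Tan P L B ∧ TanL P L C ∧
      D = (mX B (mY A C), mY A C) := by
  classical
  obtain ⟨X, Y⟩ := D
  obtain ⟨⟨h1, h2⟩, hmin⟩ := hD
  simp only at h1 h2
  -- the points
  have hB : Tan P L (X.filter fun x => ∃ l ∈ Y, x ∈ l) := by
    intro u hu
    obtain ⟨huX, l0, hl0, hul0⟩ := mem_filter.1 hu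
    have hnd : ¬ Dom P L (X.erase u, Y) := by
      intro h
      have h3 := (hmin h ⟨erase_subset u X, le_rfl⟩).1 huX
      exact (mem_erase.1 h3).1 rfl
    have h4 : ∃ l : L, l ∉ Y ∧ ∀ p ∈ X.erase u, p ∉ l := by
      by_contra h0
      push Not at h0
      refine hnd ⟨fun p hp => ?_, fun l hl => h0 l hl⟩
      by_cases hpu : p = u
      · exact ⟨l0, hl0, hpu ▸ hul0⟩
      · exact h1 p fun hpX => hp (mem_erase.2 ⟨hpu, hpX⟩)
    obtain ⟨l, hl, hl2⟩ := h4
    obtain ⟨p, hpX, hpl⟩ := h2 l hl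
    have hpu : p = u := by
      by_contra h0
      exact hl2 p (mem_erase.2 ⟨h0, hpX⟩) hpl
    refine ⟨l, hpu ▸ hpl, fun u' hu' hu'l => ?_⟩
    by_contra h0
    exact hl2 u' (mem_erase.2 ⟨h0, (mem_filter.1 hu').1⟩) hu'l
  -- the lines
  have hC : TanL P L (Y.filter fun l => ∃ x ∈ X, x ∈ l) := by
    intro l hl
    obtain ⟨hlY, x0, hx0, hx0l⟩ := mem_filter.1 hl
    have hnd : ¬ Dom P L (X, Y.erase l) := by
      intro h
      have h3 := (hmin h ⟨le_rfl, erase_subset l Y⟩).2 hlY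
      exact (mem_erase.1 h3).1 rfl
    have h4 : ∃ p : P, p ∉ X ∧ ∀ l' ∈ Y.erase l, p ∉ l' := by
      by_contra h0
      push Not at h0
      refine hnd ⟨fun p hp => h0 p hp, fun l' hl' => ?_⟩
      by_cases hll : l' = l
      · exact ⟨x0, hx0, hll ▸ hx0l⟩
      · exact h2 l' fun hl'Y => hl' (mem_erase.2 ⟨hll, hl'Y⟩)
    obtain ⟨p, hp, hp2⟩ := h4
    obtain ⟨l'', hl''Y, hpl''⟩ := h1 p hp
    have hll : l'' = l := by
      by_contra h0
      exact hp2 l'' (mem_erase.2 ⟨h0, hl''Y⟩) hpl''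
    refine ⟨p, hll ▸ hpl'', fun l' hl' hpl' => ?_⟩
    by_contra h0
    exact hp2 l' (mem_erase.2 ⟨h0, (mem_filter.1 hl').1⟩) hpl'
  -- a minimal subset with the same missed lines
  obtain ⟨A, hA, hAmin⟩ := exists_min_image (X.powerset.filter fun A => mis L A = mis L X) card
    ⟨X, mem_filter.2 ⟨mem_powerset_self X, rfl⟩⟩
  obtain ⟨hAX, hAm⟩ := mem_filter.1 hA
  have hAT : Tan P L A := by
    intro u hu
    have h3 : mis L (A.erase u) ≠ mis L X := by
      intro h
      have h4 := hAmin (A.erase u) (mem_filter.2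
        ⟨mem_powerset.2 ((erase_subset u A).trans (mem_powerset.1 hAX)), h⟩)
      exact absurd (card_erase_lt_of_mem hu) (by omega)
    have h4 : ∃ l : L, (∀ p ∈ A.erase u, p ∉ l) ∧ ∃ p ∈ A, p ∈ l := by
      by_contra h0
      push Not at h0
      apply h3
      rw [← hAm]
      ext l
      rw [mem_mis, mem_mis]
      exact ⟨fun h => h0 l h, fun h p hp => h p (mem_of_mem_erase hp)⟩
    obtain ⟨l, hl, p, hpA, hpl⟩ := h4
    have hpu : p = u := by
      by_contra h0
      exact hl p (mem_erase.2 ⟨h0, hpA⟩) hpl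
    refine ⟨l, hpu ▸ hpl, fun u' hu' hu'l => ?_⟩
    by_contra h0
    exact hl u' (mem_erase.2 ⟨h0, hu'⟩) hu'l
  have hY : mY A (Y.filter fun l => ∃ x ∈ X, x ∈ l) = Y := by
    ext l
    unfold mY
    rw [mem_union, hAm, mem_mis, mem_filter]
    constructor
    · rintro (h | h)
      · by_contra h0
        obtain ⟨p, hp, hpl⟩ := h2 l h0
        exact h p hp hpl
      · exact h.1
    · intro h
      by_cases h0 : ∃ x ∈ X, x ∈ l
      · exact Or.inr ⟨h, h0⟩
      · push Not at h0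
        exact Or.inl h0
  refine ⟨A, _, _, hAT, hB, hC, ?_⟩
  rw [hY]
  refine Prod.ext ?_ rfl
  show X = mX (X.filter fun x => ∃ l ∈ Y, x ∈ l) Y
  ext p
  unfold mX
  rw [mem_union, mem_filter, mem_filter]
  constructor
  · intro h
    by_cases h0 : ∃ l ∈ Y, p ∈ l
    · exact Or.inr ⟨h, h0⟩
    · push Not at h0
      exact Or.inl ⟨mem_univ p, h0⟩
  · rintro (h | h)
    · by_contra h0
      obtain ⟨l, hl, hpl⟩ := h1 p h0
      exact h.2 l hl hpl
    · exact h.1

end main

lemma numTan_dual (P L : Type) [Membership P L] :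
    V5helper19.EP.numTan (Dual L) (Dual P) = {C : Finset L | TanL P L C}.ncard := rfl

/-- **MC** -/
theorem t_MC : V5helper19.EP.S_MC := by
  classical
  intro P L _ _ _ _
  set Φ : Finset P × Finset P × Finset L → Finset P × Finset L :=
    fun z => (mX z.2.1 (mY z.1 z.2.2), mY z.1 z.2.2) with hΦ
  have hsub : {D : Finset P × Finset L | Minimal (Dom P L) D} ⊆
      Φ '' ({U : Finset P | Tan P L U} ×ˢ ({U : Finset P | Tan P L U} ×ˢ {C : Finset L | TanL P L C})) := by
    intro D hD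
    obtain ⟨A, B, C, hA, hB, hC, rfl⟩ := m_part2 hD
    exact ⟨(A, B, C), ⟨hA, hB, hC⟩, rfl⟩
  rw [numTan_dual]
  unfold numMin V5helper19.EP.numTan
  refine (Set.ncard_le_ncard hsub (Set.toFinite _)).trans ((Set.ncard_image_le
    (Set.toFinite _)).trans ?_)
  rw [Set.ncard_prod, Set.ncard_prod]
  apply le_of_eq
  ring

end Pool.Agent.V5helper9.EPD
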